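import Pool.Agent.W425.SG.Defs
import Pool.Agent.W349.SM.C

set_option autoImplicit false

/-! SG-C2: the limit of the smoothed integrals, with heights. -/

namespace Pool.Agent.W327.SG

open MvPolynomial Pool.Agent.H628R4.TZ Pool.Agent.H628R4.TP MeasureTheory Filter Topology
open Pool.Agent.W425.SM Pool.Agent.W349.SM Pool.Agent.W425.SG

variable {r N : ℕ} {J : Finset (Fin r)} {d : ℕ}

/-! ### Affine combinations -/

lemma comb_self (v : Fin r → Fin N → ℕ) {j : Fin r} (hj : j ∈ J) :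
    Comb v J j (Pi.single j 1) := by
  refine ⟨fun k hk => ?_, ?_, fun i => ?_⟩
  · rw [Pi.single_apply, if_neg]
    rintro rfl
    exact hk hj
  · simp [Pi.single_apply]
  · simp [Pi.single_apply]

lemma comb_ymap (v : Fin r → Fin N → ℕ) {l : Fin r} {c : Fin r → ℚ} (h : Comb v J l c)
    (x : Fin (N+1) → ℝ) : ymap v x l = ∑ j, (c j : ℝ) * ymap v x j := by
  unfold ymap
  have h1 : ∑ j, (c j : ℝ) = 1 := by exact_mod_cast h.2.1
  have h2 : ∀ i, ∑ j, (c j : ℝ) * (v j i : ℝ) = (v l i : ℝ) := by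
    intro i
    exact_mod_cast h.2.2 i
  calc ∑ i, (v l i : ℝ) * x i.succ - x 0
      = ∑ i, (∑ j, (c j : ℝ) * (v j i : ℝ)) * x i.succ - (∑ j, (c j : ℝ)) * x 0 := by
        rw [h1, one_mul]
        congr 1
        exact Finset.sum_congr rfl fun i _ => by rw [h2]
    _ = ∑ j, (c j : ℝ) * (∑ i, (v j i : ℝ) * x i.succ - x 0) := by
        simp_rw [mul_sub, Finset.sum_sub_distrib, Finset.mul_sum, Finset.sum_mul]
        rw [Finset.sum_comm]
        congr 1
        exact Finset.sum_congr rfl fun j _ => Finset.sum_congr rfl fun i _ => by ring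

lemma comb_zero (v : Fin r → Fin N → ℕ) {l : Fin r} {c : Fin r → ℚ} (h : Comb v J l c)
    (x : Fin (N+1) → ℝ) (hx : ∀ j ∈ J, ymap v x j = 0) : ymap v x l = 0 := by
  rw [comb_ymap v h]
  refine Finset.sum_eq_zero fun j _ => ?_
  by_cases hj : j ∈ J
  · rw [hx j hj, mul_zero]
  · rw [h.1 j hj]
    simp

/-- the rational forms -/
noncomputable def yQ (v : Fin r → Fin N → ℕ) (j : Fin r) : (Fin (N+1) → ℚ) →ₗ[ℚ] ℚ :=
  ∑ i : Fin N, (v j i : ℚ) • LinearMap.proj i.succ - LinearMap.proj 0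

lemma yQ_apply (v : Fin r → Fin N → ℕ) (j : Fin r) (x : Fin (N+1) → ℚ) :
    yQ v j x = ∑ i, (v j i : ℚ) * x i.succ - x 0 := by
  simp [yQ]

lemma sum_ext (c : J → ℚ) (f : Fin r → ℚ) :
    ∑ j, (if h : j ∈ J then c ⟨j, h⟩ else 0) * f j = ∑ j : J, c j * f j := by
  classical
  have h1 : ∑ j : J, c j * f j =
      ∑ j : J, (fun j : Fin r => (if h : j ∈ J then c ⟨j, h⟩ else 0) * f j) j := by
    refine Finset.sum_congr rfl fun j _ => ?_
    simp only
    rw [dif_pos j.2]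
  rw [h1, Finset.sum_coe_sort J (fun j : Fin r => (if h : j ∈ J then c ⟨j, h⟩ else 0) * f j)]
  symm
  refine Finset.sum_subset (Finset.subset_univ _) fun j _ hj => ?_
  rw [dif_neg hj, zero_mul]

lemma form_ne' (v : Fin r → Fin N → ℕ)
    {Θ : ((J → ℝ) × (Fin d → ℝ)) ≃ₗ[ℝ] (Fin (N+1) → ℝ)} {κ : ℝ} (hA : Adapt v J d Θ κ)
    (l : Fin r) (hl : ∀ c, ¬ Comb v J l c) : ∃ a : Fin d → ℝ, ymap v (Θ (0, a)) l ≠ 0 := by
  classical
  have h1 : ¬ (⨅ j : J, LinearMap.ker (yQ v j) ≤ LinearMap.ker (yQ v l)) := by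
    intro hle
    have h2 := mem_span_of_iInf_ker_le_ker hle
    rw [Submodule.mem_span_range_iff_exists_fun] at h2
    obtain ⟨c, hc⟩ := h2
    refine hl (fun j => if h : j ∈ J then c ⟨j, h⟩ else 0) ⟨fun j hj => by simp [hj], ?_, fun i => ?_⟩
    · have h3 := LinearMap.congr_fun hc (Fin.cons (-1) (fun _ => 0))
      simp only [LinearMap.sum_apply, LinearMap.smul_apply, yQ_apply, Fin.cons_zero,
        Fin.cons_succ, mul_zero, Finset.sum_const_zero, zero_sub, neg_neg, smul_eq_mul,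
        mul_one] at h3
      rw [← h3]
      have := sum_ext c (fun _ => 1)
      simpa using this
    · have h3 := LinearMap.congr_fun hc (Fin.cons 0 (fun k => if k = i then 1 else 0))
      simp only [LinearMap.sum_apply, LinearMap.smul_apply, yQ_apply, Fin.cons_zero,
        Fin.cons_succ, mul_ite, mul_one, mul_zero, Finset.sum_ite_eq', Finset.mem_univ, if_true,
        sub_zero, smul_eq_mul] at h3
      rw [← h3]
      exact sum_ext c (fun j => (v j i : ℚ))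
  rw [SetLike.not_le_iff_exists] at h1
  obtain ⟨x, hx1, hx2⟩ := h1
  rw [Submodule.mem_iInf] at hx1
  rw [LinearMap.mem_ker] at hx2
  set X : Fin (N+1) → ℝ := fun i => (x i : ℝ) with hX
  have h3 : ∀ j, ymap v X j = ((yQ v j x : ℚ) : ℝ) := by
    intro j
    rw [yQ_apply]
    unfold ymap
    rw [hX]
    push_cast
    rfl
  have h4 : (Θ.symm X).1 = 0 := by
    funext j
    have h5 := hA.y (Θ.symm X).1 (Θ.symm X).2 j
    rw [Prod.mk.eta, LinearEquiv.apply_symm_apply, h3, LinearMap.mem_ker.1 (hx1 j)] at h5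
    rw [← h5]
    simp
  refine ⟨(Θ.symm X).2, ?_⟩
  rw [← h4, Prod.mk.eta, LinearEquiv.apply_symm_apply, h3]
  exact_mod_cast hx2

/-! ### The substitution -/

/-- the point with `y_j = θ_j`, `j ∈ J` -/
noncomputable def uJ (θ : Fin r → ℝ) (Θ : ((J → ℝ) × (Fin d → ℝ)) ≃ₗ[ℝ] (Fin (N+1) → ℝ)) :
    Fin (N+1) → ℝ := Θ (fun j : J => θ j, 0)

noncomputable def Xh (θ : Fin r → ℝ) (Θ : ((J → ℝ) × (Fin d → ℝ)) ≃ₗ[ℝ] (Fin (N+1) → ℝ))
    (K α : ℝ) (m : ℕ) (p : (J → ℝ) × (Fin d → ℝ)) : Fin (N+1) → ℝ :=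
  Θ ((dl m) ^ 4 • p.1, p.2) + (bv K α m + (dl m) ^ 2 • uJ θ Θ)

/-- the argument of the smoothed step function -/
noncomputable def ag (v : Fin r → Fin N → ℕ) (θ : Fin r → ℝ)
    (Θ : ((J → ℝ) × (Fin d → ℝ)) ≃ₗ[ℝ] (Fin (N+1) → ℝ)) (m : ℕ) (p : (J → ℝ) × (Fin d → ℝ))
    (j : Fin r) : ℝ :=
  ymap v (Θ ((dl m) ^ 4 • p.1, p.2)) j + (dl m) ^ 2 * (ymap v (uJ θ Θ) j - θ j)

open Classical in
noncomputable def Hh (v : Fin r → Fin N → ℕ) (θ : Fin r → ℝ)
    (Θ : ((J → ℝ) × (Fin d → ℝ)) ≃ₗ[ℝ] (Fin (N+1) → ℝ)) (K α s : ℝ) (m : ℕ)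
    (p : (J → ℝ) × (Fin d → ℝ)) : ℂ :=
  (if ∀ i, 0 < Xh θ Θ K α m p i then wt (lm (N := N) s) (Xh θ Θ K α m p) else 0) *
    (((∏ j : J, rho (p.1 j)) * ∏ j ∈ Jᶜ, stp ((dl m) ^ 4) (ag v θ Θ m p j) : ℝ) : ℂ)

lemma Xh_y (v : Fin r → Fin N → ℕ) (θ : Fin r → ℝ)
    (Θ : ((J → ℝ) × (Fin d → ℝ)) ≃ₗ[ℝ] (Fin (N+1) → ℝ)) (K α : ℝ) (m : ℕ)
    (p : (J → ℝ) × (Fin d → ℝ)) (j : Fin r) :
    ymap v (Xh θ Θ K α m p) j + yzH v θ K α m j = ag v θ Θ m p j := by
  have h1 := ymap_bv (N := N) v K α m j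
  unfold Xh ag yzH
  unfold yz at h1
  rw [ymap_add, ymap_add, ymap_smul]
  linarith

lemma int_eqH (v : Fin r → Fin N → ℕ) (θ : Fin r → ℝ)
    (Θ : ((J → ℝ) × (Fin d → ℝ)) ≃ₗ[ℝ] (Fin (N+1) → ℝ)) (κ : ℝ) (hA : Adapt v J d Θ κ)
    (K α s : ℝ) (m : ℕ) :
    ∫ x, integH v θ K α s J m x ∂(Measure.pi (ms (∅ : Finset (Fin (N+1))))) =
      (κ : ℂ) * ∫ p, Hh v θ Θ K α s m p := by
  classical
  have h1 : Measure.pi (ms (∅ : Finset (Fin (N+1)))) =
      (volume : Measure (Fin (N+1) → ℝ)).restrict (Set.pi Set.univ fun _ => Set.Ioi 0) := by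
    rw [volume_pi, Measure.restrict_pi_pi]
    congr 1
  rw [h1, ← integral_indicator (MeasurableSet.univ_pi fun _ => measurableSet_Ioi), hA.int]
  congr 1
  have : (volume : Measure ((J → ℝ) × (Fin d → ℝ))).IsAddHaarMeasure :=
    Measure.prod.instIsAddHaarMeasure _ _
  rw [← integral_add_right_eq_self _ (Θ.symm (bv K α m + (dl m) ^ 2 • uJ θ Θ))]
  have hε : 0 < (dl m) ^ 4 := pow_pos (dl_pos m) 4
  rw [scale_fst ((dl m)^4) hε, ← integral_const_mul]
  refine integral_congr_ae (Eventually.of_forall fun p => ?_)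
  simp only
  rw [map_add, LinearEquiv.apply_symm_apply]
  change _ * Set.indicator _ _ (Xh θ Θ K α m p) = _
  unfold Hh
  rw [Set.indicator_apply]
  have hmem : (Xh θ Θ K α m p ∈ (Set.pi Set.univ fun _ => Set.Ioi (0:ℝ))) ↔
      ∀ i, 0 < Xh θ Θ K α m p i := by simp [Set.mem_pi]
  simp only [hmem]
  split_ifs with hpos
  · unfold integH
    simp only [Xh_y]
    have hprod : ∏ j, (((if j ∈ J then -ph (dl m ^ 4) 1 (ag v θ Θ m p j)
        else ph (dl m ^ 4) 0 (ag v θ Θ m p j) : ℝ)) : ℂ) =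
        (((∏ j : J, -ph (dl m ^ 4) 1 ((dl m) ^ 4 * p.1 j)) *
          ∏ j ∈ Jᶜ, stp ((dl m) ^ 4) (ag v θ Θ m p j) : ℝ) : ℂ) := by
      rw [← Complex.ofReal_prod, ← Finset.prod_mul_prod_compl J]
      congr 2
      · rw [← Finset.prod_coe_sort J]
        refine Finset.prod_congr rfl fun j _ => ?_
        rw [if_pos j.2]
        unfold ag uJ
        rw [hA.y, hA.y, sub_self, mul_zero, add_zero]
        rfl
      · refine Finset.prod_congr rfl fun j hj => ?_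
        rw [if_neg (Finset.mem_compl.1 hj), ph_zero]
    rw [hprod]
    have h2 : ∏ j : J, rho (p.1 j) = ((dl m) ^ 4) ^ Fintype.card J *
        ∏ j : J, -ph (dl m ^ 4) 1 ((dl m) ^ 4 * p.1 j) := by
      rw [← Finset.card_univ, ← Finset.prod_const, ← Finset.prod_mul_distrib]
      exact Finset.prod_congr rfl fun j _ => (ph_one_scale _ hε _).symm
    rw [h2]
    push_cast
    ring
  · simp

lemma Xh_cont (θ : Fin r → ℝ) (Θ : ((J → ℝ) × (Fin d → ℝ)) ≃ₗ[ℝ] (Fin (N+1) → ℝ)) (K α : ℝ)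
    (m : ℕ) : Continuous (Xh θ Θ K α m) := by
  unfold Xh
  have h : Continuous Θ := Θ.toLinearMap.continuous_of_finiteDimensional
  exact (h.comp (by fun_prop)).add continuous_const

lemma ag_cont (v : Fin r → Fin N → ℕ) (θ : Fin r → ℝ)
    (Θ : ((J → ℝ) × (Fin d → ℝ)) ≃ₗ[ℝ] (Fin (N+1) → ℝ)) (m : ℕ) (j : Fin r) :
    Continuous (fun p => ag v θ Θ m p j) := by
  unfold ag
  have h : Continuous Θ := Θ.toLinearMap.continuous_of_finiteDimensional
  exact ((ymap_cont v j).comp (h.comp (by fun_prop))).add continuous_const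

lemma Hh_meas (v : Fin r → Fin N → ℕ) (θ : Fin r → ℝ)
    (Θ : ((J → ℝ) × (Fin d → ℝ)) ≃ₗ[ℝ] (Fin (N+1) → ℝ)) (K α s : ℝ) (m : ℕ) :
    AEStronglyMeasurable (Hh v θ Θ K α s m) volume := by
  classical
  refine Measurable.aestronglyMeasurable ?_
  unfold Hh
  refine Measurable.mul ?_ ?_
  · refine Measurable.ite ?_ ((wt_cont s).comp (Xh_cont θ Θ K α m)).measurable measurable_const
    have : {p : (J → ℝ) × (Fin d → ℝ) | ∀ i, 0 < Xh θ Θ K α m p i} =
        ⋂ i, {p | 0 < Xh θ Θ K α m p i} := by ext p; simp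
    rw [this]
    exact MeasurableSet.iInter fun i => measurableSet_lt measurable_const
      ((continuous_apply i).comp (Xh_cont θ Θ K α m)).measurable
  · refine (Complex.continuous_ofReal.comp (Continuous.mul ?_ ?_)).measurable
    · exact continuous_finsetProd _ fun j _ => rho_cont.comp
        ((continuous_apply j).comp continuous_fst)
    · exact continuous_finsetProd _ fun j _ => (stp_contDiff _).continuous.comp
        (ag_cont v θ Θ m j)

lemma Hh_bd (v : Fin r → Fin N → ℕ) (θ : Fin r → ℝ)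
    (Θ : ((J → ℝ) × (Fin d → ℝ)) ≃ₗ[ℝ] (Fin (N+1) → ℝ)) (K α s : ℝ) (hs : 0 < s) :
    ∃ bound : (J → ℝ) × (Fin d → ℝ) → ℝ, Integrable bound ∧
      ∀ m p, ‖Hh v θ Θ K α s m p‖ ≤ bound p := by
  classical
  obtain ⟨C, c', hC, hc', hb⟩ := exp_bd Θ (min s 1) (|K| + |α| + ‖uJ θ Θ‖) (lt_min hs one_pos)
  refine ⟨fun p => (∏ j : J, |rho (p.1 j)|) * (C * ∏ i, Real.exp (-c' * |p.2 i|)), ?_,
    fun m p => ?_⟩
  · rw [Measure.volume_eq_prod]
    refine Integrable.mul_prod (f := fun z : J → ℝ => ∏ j : J, |rho (z j)|)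
      (g := fun a : Fin d → ℝ => C * ∏ i, Real.exp (-c' * |a i|)) ?_ ?_
    · exact Integrable.fintype_prod (f := fun (_ : J) t => |rho t|) fun j => rho_int.abs
    · exact (Integrable.fintype_prod (f := fun (_ : Fin d) t => Real.exp (-c' * |t|))
        fun i => exp_abs_int c' hc').const_mul C
  · unfold Hh
    rw [norm_mul, Complex.norm_real, Real.norm_eq_abs, abs_mul, Finset.abs_prod, Finset.abs_prod]
    have h1 : ∏ j ∈ Jᶜ, |stp ((dl m) ^ 4) (ag v θ Θ m p j)| ≤ 1 :=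
      Finset.prod_le_one (fun _ _ => abs_nonneg _) fun _ _ => stp_bd _ _
    have hnorm : ‖bv K α m + (dl m) ^ 2 • uJ θ Θ‖ ≤ |K| + |α| + ‖uJ θ Θ‖ := by
      refine (norm_add_le _ _).trans (add_le_add (bv_norm K α m) ?_)
      rw [norm_smul, Real.norm_of_nonneg (by positivity)]
      have h4 : (dl m) ^ 2 ≤ 1 := pow_le_one₀ (dl_pos m).le (dl_le m)
      exact mul_le_of_le_one_left (norm_nonneg _) h4
    have h2 : ‖(if ∀ i, 0 < Xh θ Θ K α m p i then wt (lm (N := N) s) (Xh θ Θ K α m p)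
        else 0 : ℂ)‖ ≤ C * ∏ i, Real.exp (-c' * |p.2 i|) := by
      split_ifs with hpos
      · refine (wt_bd s hs _ hpos).trans ?_
        exact hb _ _ _ hnorm
      · rw [norm_zero]
        exact mul_nonneg hC (Finset.prod_nonneg fun _ _ => (Real.exp_pos _).le)
    have h3 : 0 ≤ ∏ j : J, |rho (p.1 j)| := Finset.prod_nonneg fun _ _ => abs_nonneg _
    have h4 : (∏ j : J, |rho (p.1 j)|) * ∏ j ∈ Jᶜ, |stp ((dl m) ^ 4) (ag v θ Θ m p j)| ≤
        ∏ j : J, |rho (p.1 j)| := mul_le_of_le_one_right h3 h1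
    calc _ ≤ (C * ∏ i, Real.exp (-c' * |p.2 i|)) * ∏ j : J, |rho (p.1 j)| :=
          mul_le_mul h2 h4 (mul_nonneg h3 (Finset.prod_nonneg fun _ _ => abs_nonneg _))
            ((norm_nonneg _).trans h2)
      _ = _ := mul_comm _ _

lemma ae_neH (v : Fin r → Fin N → ℕ)
    (Θ : ((J → ℝ) × (Fin d → ℝ)) ≃ₗ[ℝ] (Fin (N+1) → ℝ)) (κ : ℝ) (hA : Adapt v J d Θ κ) :
    ∀ᵐ p : (J → ℝ) × (Fin d → ℝ), ∀ j, (∀ c, ¬ Comb v J j c) → ymap v (Θ (0, p.2)) j ≠ 0 := by
  rw [ae_all_iff]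
  intro j
  by_cases hj : ∀ c, ¬ Comb v J j c
  swap
  · exact Eventually.of_forall fun p h => absurd h hj
  set l : ((J → ℝ) × (Fin d → ℝ)) →ₗ[ℝ] ℝ :=
    yL v j ∘ₗ Θ.toLinearMap ∘ₗ LinearMap.inr ℝ (J → ℝ) (Fin d → ℝ) ∘ₗ
      LinearMap.snd ℝ (J → ℝ) (Fin d → ℝ) with hl
  have hlp : ∀ p, l p = ymap v (Θ (0, p.2)) j := by
    intro p
    rw [hl]
    simp only [LinearMap.comp_apply, LinearMap.snd_apply, LinearMap.inr_apply,
      LinearEquiv.coe_coe]
    exact yL_apply v j _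
  have hne : LinearMap.ker l ≠ ⊤ := by
    intro h
    obtain ⟨a, ha⟩ := form_ne' v hA j hj
    have : ((0 : J → ℝ), a) ∈ LinearMap.ker l := by rw [h]; trivial
    rw [LinearMap.mem_ker, hlp] at this
    exact ha this
  have : (volume : Measure ((J → ℝ) × (Fin d → ℝ))).IsAddHaarMeasure :=
    Measure.prod.instIsAddHaarMeasure _ _
  have h0 := Measure.addHaar_submodule (volume : Measure ((J → ℝ) × (Fin d → ℝ)))
    (LinearMap.ker l) hne
  have : ∀ᵐ p : (J → ℝ) × (Fin d → ℝ), p ∉ (LinearMap.ker l : Set _) :=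
    measure_eq_zero_iff_ae_notMem.1 h0
  filter_upwards [this] with p hp _ h
  apply hp
  rw [SetLike.mem_coe, LinearMap.mem_ker, hlp, h]

/-! ### The limit -/

lemma ev_posw (x k : ℝ) (w : ℕ → ℝ) (hw : Tendsto w atTop (𝓝 0)) (h : 0 < x ∨ (x = 0 ∧ 0 < k)) :
    ∀ᶠ m : ℕ in atTop, 0 < x + dl m * (w m + k) := by
  rcases h with h | ⟨h, hk⟩
  · have : Tendsto (fun m => x + dl m * (w m + k)) atTop (𝓝 (x + 0 * (0 + k))) :=
      tendsto_const_nhds.add (dl_tendsto.mul (hw.add_const k))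
    rw [zero_mul, add_zero] at this
    exact this.eventually (lt_mem_nhds h)
  · have : Tendsto (fun m => w m + k) atTop (𝓝 (0 + k)) := hw.add_const k
    rw [zero_add] at this
    filter_upwards [this.eventually (lt_mem_nhds hk)] with m hm
    rw [h, zero_add]
    exact mul_pos (dl_pos m) hm

lemma ev_negw (x k : ℝ) (w : ℕ → ℝ) (hw : Tendsto w atTop (𝓝 0)) (h : x < 0 ∨ (x = 0 ∧ k < 0)) :
    ∀ᶠ m : ℕ in atTop, x + dl m * (w m + k) < 0 := by
  have h1 : 0 < -x ∨ (-x = 0 ∧ 0 < -k) := by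
    rcases h with h | ⟨h, hk⟩
    · left; linarith
    · right; exact ⟨by linarith, by linarith⟩
  have hw' : Tendsto (fun m => -w m) atTop (𝓝 0) := by simpa using hw.neg
  filter_upwards [ev_posw (-x) (-k) _ hw' h1] with m hm
  nlinarith

lemma Hh_lim (v : Fin r → Fin N → ℕ) (θ : Fin r → ℝ) (hθ : LinearIndependent ℚ θ)
    (Θ : ((J → ℝ) × (Fin d → ℝ)) ≃ₗ[ℝ] (Fin (N+1) → ℝ)) (κ : ℝ) (hA : Adapt v J d Θ κ)
    (K α s : ℝ) (hK : 0 < K) (hα : α ≠ 0) (p : (J → ℝ) × (Fin d → ℝ))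
    (hp : ∀ j, (∀ c, ¬ Comb v J j c) → ymap v (Θ (0, p.2)) j ≠ 0) :
    Tendsto (fun m => Hh v θ Θ K α s m p) atTop
      (𝓝 ((∏ j : J, (rho (p.1 j) : ℂ)) * limGH v θ α s J (Θ (0, p.2)))) := by
  classical
  set x := Θ (0, p.2) with hx
  set u := Θ (p.1, 0) with hu
  set q := uJ θ Θ with hq
  have hxJ : ∀ j ∈ J, ymap v x j = 0 := fun j hj => hA.y 0 p.2 ⟨j, hj⟩
  have hqJ : ∀ j ∈ J, ymap v q j = θ j := fun j hj => hA.y (fun j : J => θ j) 0 ⟨j, hj⟩
  have hdl2 : Tendsto (fun m => (dl m) ^ 2) atTop (𝓝 0) := by simpa using dl_tendsto.pow 2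
  -- the correction
  set W : Fin (N+1) → ℕ → ℝ := fun i m => dl m * (q i + (dl m) ^ 2 * u i) with hW
  have hWt : ∀ i, Tendsto (W i) atTop (𝓝 0) := by
    intro i
    have : Tendsto (fun m => dl m * (q i + (dl m) ^ 2 * u i)) atTop (𝓝 (0 * (q i + 0 * u i))) :=
      dl_tendsto.mul (tendsto_const_nhds.add (hdl2.mul_const _))
    rwa [zero_mul] at this
  have hX : ∀ m, Xh θ Θ K α m p = x + (dl m) ^ 4 • u + (bv K α m + (dl m) ^ 2 • q) := by
    intro m
    unfold Xh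
    rw [Θ_split]
  have hX0 : ∀ m, Xh θ Θ K α m p 0 = x 0 + dl m * (W 0 m + -K) := by
    intro m
    rw [hX, hW]
    simp only [Pi.add_apply, Pi.smul_apply, smul_eq_mul, bv, Fin.cons_zero]
    ring
  have hXs : ∀ m (i : Fin N), Xh θ Θ K α m p i.succ = x i.succ + dl m * (W i.succ m + α) := by
    intro m i
    rw [hX, hW]
    simp only [Pi.add_apply, Pi.smul_apply, smul_eq_mul, bv, Fin.cons_succ]
    ring
  have hY : ∀ m j, ag v θ Θ m p j =
      ymap v x j + (dl m) ^ 2 * ((dl m) ^ 2 * ymap v u j + (ymap v q j - θ j)) := by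
    intro m j
    unfold ag
    rw [Θ_split, ymap_add, ymap_smul]
    ring
  have hz : ∀ (_ : ∃ i, ∀ᶠ m in atTop, Xh θ Θ K α m p i < 0),
      Tendsto (fun m => Hh v θ Θ K α s m p) atTop (𝓝 0) := by
    rintro ⟨i, hi⟩
    refine tendsto_const_nhds.congr' ?_
    filter_upwards [hi] with m hm
    unfold Hh
    rw [if_neg (fun h => absurd (h i) (not_lt.2 hm.le)), zero_mul]
  have hz2 : ∀ (_ : ∃ j, j ∉ J ∧ ∀ᶠ m in atTop, ag v θ Θ m p j < 0),
      Tendsto (fun m => Hh v θ Θ K α s m p) atTop (𝓝 0) := by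
    rintro ⟨j, hj, hi⟩
    refine tendsto_const_nhds.congr' ?_
    filter_upwards [hi] with m hm
    unfold Hh
    have h5 : ∏ j ∈ Jᶜ, stp ((dl m) ^ 4) (ag v θ Θ m p j) = 0 :=
      Finset.prod_eq_zero (Finset.mem_compl.2 hj) (stp_neg _ (pow_pos (dl_pos m) 4) _ hm.le)
    rw [h5]
    simp
  unfold limGH
  by_cases h0 : 0 < x 0
  swap
  · rw [if_neg (fun h => h0 h.1), mul_zero]
    refine hz ⟨0, ?_⟩
    simp only [hX0]
    refine ev_negw _ _ _ (hWt 0) ?_
    rcases lt_or_eq_of_le (not_lt.1 h0) with h | h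
    · exact Or.inl h
    · exact Or.inr ⟨h, by linarith⟩
  by_cases h1 : ∀ i : Fin N, 0 < x i.succ ∨ (0 < α ∧ x i.succ = 0)
  swap
  · rw [if_neg (fun h => h1 h.2.1), mul_zero]
    push Not at h1
    obtain ⟨i, hi1, hi2⟩ := h1
    refine hz ⟨i.succ, ?_⟩
    simp only [hXs]
    refine ev_negw _ _ _ (hWt _) ?_
    rcases lt_or_eq_of_le hi1 with h | h
    · exact Or.inl h
    · refine Or.inr ⟨h, ?_⟩
      rcases lt_or_gt_of_ne hα with h' | h'
      · exact h'
      · exact absurd h (hi2 h')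
  by_cases h2 : ∀ l, (∀ c, ¬ Comb v J l c) → 0 < ymap v x l
  swap
  · rw [if_neg (fun h => h2 h.2.2.1), mul_zero]
    push Not at h2
    obtain ⟨j, hj, hj2⟩ := h2
    have hj3 : ymap v x j < 0 := lt_of_le_of_ne hj2 (hp j hj)
    refine hz2 ⟨j, fun h => hj _ (comb_self v h), ?_⟩
    have h4 : Tendsto (fun m => ymap v x j +
        (dl m) ^ 2 * ((dl m) ^ 2 * ymap v u j + (ymap v q j - θ j))) atTop
        (𝓝 (ymap v x j + 0 * (0 * ymap v u j + (ymap v q j - θ j)))) :=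
      tendsto_const_nhds.add (hdl2.mul ((hdl2.mul_const _).add_const _))
    rw [zero_mul, add_zero] at h4
    simp only [hY]
    exact h4.eventually (gt_mem_nhds hj3)
  -- the combinations
  have hcomb : ∀ l, ∀ c, Comb v J l c → ymap v x l = 0 ∧
      ymap v q l = ∑ j, (c j : ℝ) * θ j := by
    intro l c hc
    refine ⟨comb_zero v hc x hxJ, ?_⟩
    rw [comb_ymap v hc]
    refine Finset.sum_congr rfl fun j _ => ?_
    by_cases hj : j ∈ J
    · rw [hqJ j hj]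
    · rw [hc.1 j hj]
      simp
  by_cases h3 : Adm v θ J
  swap
  · rw [if_neg (fun h => h3 h.2.2.2), mul_zero]
    unfold Adm at h3
    push Not at h3
    obtain ⟨l, hl, c, hc, hle⟩ := h3
    obtain ⟨f1, f2⟩ := hcomb l c hc
    have hne : ymap v q l - θ l ≠ 0 := by
      rw [f2]
      intro h
      have h5 : ∑ j, (c j - (Pi.single l (1:ℚ) : _ → ℚ) j) • θ j = 0 := by
        simp_rw [sub_smul, Finset.sum_sub_distrib]
        have h6 : ∑ j, (Pi.single l (1:ℚ) : _ → ℚ) j • θ j = θ l := by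
          rw [Finset.sum_eq_single l]
          · simp
          · intro b _ hb
            rw [Pi.single_eq_of_ne hb, zero_smul]
          · intro hl'
            exact absurd (Finset.mem_univ _) hl'
        rw [h6]
        rw [← h]
        rfl
      have h7 := (Fintype.linearIndependent_iff.1 hθ) _ h5 l
      rw [hc.1 l hl] at h7
      simp at h7
    have hlt : ymap v q l - θ l < 0 := by
      refine lt_of_le_of_ne ?_ hne
      rw [f2]
      linarith
    refine hz2 ⟨l, hl, ?_⟩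
    simp only [hY, f1, zero_add]
    have h4 : Tendsto (fun m => (dl m) ^ 2 * ymap v u l + (ymap v q l - θ l)) atTop
        (𝓝 (0 * ymap v u l + (ymap v q l - θ l))) := (hdl2.mul_const _).add_const _
    rw [zero_mul, zero_add] at h4
    filter_upwards [h4.eventually (gt_mem_nhds hlt)] with m hm
    exact mul_neg_of_pos_of_neg (pow_pos (dl_pos m) 2) hm
  rw [if_pos ⟨h0, h1, h2, h3⟩]
  -- eventually all conditions hold
  have e1 : ∀ᶠ m in atTop, ∀ i, 0 < Xh θ Θ K α m p i := by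
    rw [eventually_all]
    intro i
    refine Fin.cases ?_ (fun j => ?_) i
    · simp only [hX0]
      exact ev_posw _ _ _ (hWt 0) (Or.inl h0)
    · simp only [hXs]
      refine ev_posw _ _ _ (hWt _) ?_
      rcases h1 j with h | ⟨h, h'⟩
      · exact Or.inl h
      · exact Or.inr ⟨h', h⟩
  have e2 : ∀ᶠ m in atTop, ∀ j, j ∉ J → stp ((dl m) ^ 4) (ag v θ Θ m p j) = 1 := by
    rw [eventually_all]
    intro j
    by_cases hj : j ∈ J
    · exact Eventually.of_forall fun m h => absurd hj h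
    by_cases hcj : ∃ c, Comb v J j c
    · obtain ⟨c, hc⟩ := hcj
      obtain ⟨f1, f2⟩ := hcomb j c hc
      have hgt : 0 < ymap v q j - θ j := by
        rw [f2]
        linarith [h3 j hj c hc]
      have h4 : Tendsto (fun m => (dl m) ^ 2 * ymap v u j + (ymap v q j - θ j) - (dl m) ^ 2) atTop
          (𝓝 (0 * ymap v u j + (ymap v q j - θ j) - 0)) :=
        ((hdl2.mul_const _).add_const _).sub hdl2
      rw [zero_mul, zero_add, sub_zero] at h4
      filter_upwards [h4.eventually (lt_mem_nhds hgt)] with m hm _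
      rw [hY, f1, zero_add]
      refine stp_big _ (pow_pos (dl_pos m) 4) _ ?_
      have h5 : (dl m) ^ 4 = (dl m) ^ 2 * (dl m) ^ 2 := by ring
      rw [h5]
      have h6 : 0 < (dl m) ^ 2 := pow_pos (dl_pos m) 2
      nlinarith
    · have hcj' : ∀ c, ¬ Comb v J j c := fun c hc => hcj ⟨c, hc⟩
      have hdl4 : Tendsto (fun m => (dl m) ^ 4) atTop (𝓝 0) := by simpa using dl_tendsto.pow 4
      have h4 : Tendsto (fun m => ymap v x j +
          (dl m) ^ 2 * ((dl m) ^ 2 * ymap v u j + (ymap v q j - θ j)) - (dl m) ^ 4) atTop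
          (𝓝 (ymap v x j + 0 * (0 * ymap v u j + (ymap v q j - θ j)) - 0)) :=
        (tendsto_const_nhds.add (hdl2.mul ((hdl2.mul_const _).add_const _))).sub hdl4
      rw [zero_mul, add_zero, sub_zero] at h4
      filter_upwards [h4.eventually (lt_mem_nhds (h2 j hcj'))] with m hm _
      rw [hY]
      exact stp_big _ (pow_pos (dl_pos m) 4) _ (by linarith)
  have h6 : Tendsto (fun m => wt (lm (N := N) s) (Xh θ Θ K α m p) * ∏ j : J, (rho (p.1 j) : ℂ))
      atTop (𝓝 (wt (lm (N := N) s) x * ∏ j : J, (rho (p.1 j) : ℂ))) := by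
    refine Tendsto.mul_const _ ?_
    refine ((wt_cont s).tendsto x).comp ?_
    rw [tendsto_pi_nhds]
    intro i
    refine Fin.cases ?_ (fun j => ?_) i
    · simp only [hX0]
      have : Tendsto (fun m => x 0 + dl m * (W 0 m + -K)) atTop (𝓝 (x 0 + 0 * (0 + -K))) :=
        tendsto_const_nhds.add (dl_tendsto.mul ((hWt 0).add_const _))
      rwa [zero_mul, add_zero] at this
    · simp only [hXs]
      have : Tendsto (fun m => x j.succ + dl m * (W j.succ m + α)) atTop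
          (𝓝 (x j.succ + 0 * (0 + α))) :=
        tendsto_const_nhds.add (dl_tendsto.mul ((hWt _).add_const _))
      rwa [zero_mul, add_zero] at this
  rw [mul_comm]
  refine h6.congr' ?_
  filter_upwards [e1, e2] with m hm1 hm2
  unfold Hh
  rw [if_pos hm1]
  have h7 : ∏ j ∈ Jᶜ, stp ((dl m) ^ 4) (ag v θ Θ m p j) = 1 :=
    Finset.prod_eq_one fun j hj => hm2 j (Finset.mem_compl.1 hj)
  rw [h7]
  push_cast
  ring

lemma lim_intH (v : Fin r → Fin N → ℕ) (θ : Fin r → ℝ)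
    (Θ : ((J → ℝ) × (Fin d → ℝ)) ≃ₗ[ℝ] (Fin (N+1) → ℝ)) (α s : ℝ) :
    ∫ p : (J → ℝ) × (Fin d → ℝ), (∏ j : J, (rho (p.1 j) : ℂ)) * limGH v θ α s J (Θ (0, p.2)) =
      ∫ a, limGH v θ α s J (Θ (0, a)) := by
  rw [Measure.volume_eq_prod]
  rw [integral_prod_mul (fun z : J → ℝ => ∏ j : J, (rho (z j) : ℂ))
    (fun a : Fin d → ℝ => limGH v θ α s J (Θ (0, a)))]
  have h1 : ∫ z : J → ℝ, ∏ j : J, (rho (z j) : ℂ) = 1 := by
    rw [integral_fintype_prod_volume_eq_prod (fun (_ : J) t => (rho t : ℂ))]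
    refine Finset.prod_eq_one fun j _ => ?_
    rw [integral_complex_ofReal, rho_integral]
    simp
  rw [h1, one_mul]

/-- Part C2. -/
theorem taskC2 : Pool.Agent.W425.SG.TaskC2 := by
  intro r N v θ hθ K α s hK hα hs J _ _ d Θ κ hA
  simp only [int_eqH v θ Θ κ hA K α s]
  refine Tendsto.const_mul _ ?_
  obtain ⟨bound, hb1, hb2⟩ := Hh_bd v θ Θ K α s hs
  rw [← lim_intH v θ Θ α s]
  refine tendsto_integral_of_dominated_convergence bound (fun m => Hh_meas v θ Θ K α s m) hb1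
    (fun m => Eventually.of_forall fun p => hb2 m p) ?_
  filter_upwards [ae_neH v Θ κ hA] with p hp
  exact Hh_lim v θ hθ Θ κ hA K α s hK hα p hp

end Pool.Agent.W327.SG
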